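import Mathlib

/-!
# A recursion for the probability of a parse

`p` and `q` are sequences of variables (in `V`, `U`) and letters (in `A`). The letters of the
variables of `p` and of the pending variables of `q` are chosen at random: `ω : V ⊕ U → A`.
-/

namespace Pool.Agent.W5h95.PT

open Set

section fiber

variable {ι A : Type} [Fintype ι] [DecidableEq ι] [Fintype A]

/-- closed under changes of the coordinate `i` -/
def Cl (i : ι) (F : Set (ι → A)) : Prop := ∀ ω b, ω ∈ F → Function.update ω i b ∈ F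

/-- a coordinate determined by the other ones -/
lemma card_eq {i : ι} {F : Set (ι → A)} (hF : Cl i F) (c : (ι → A) → A)
    (hc : ∀ ω b, c (Function.update ω i b) = c ω) :
    Fintype.card A * {ω | ω ∈ F ∧ ω i = c ω}.ncard ≤ F.ncard := by
  classical
  have h1 : Fintype.card A * {ω | ω ∈ F ∧ ω i = c ω}.ncard =
      ((univ : Set A) ×ˢ {ω | ω ∈ F ∧ ω i = c ω}).ncard := by
    rw [ncard_prod, ncard_univ, Nat.card_eq_fintype_card]
  rw [h1]
  refine ncard_le_ncard_of_injOn (fun x : A × (ι → A) => Function.update x.2 i x.1) ?_ ?_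
    (toFinite _)
  · rintro ⟨b, ω⟩ ⟨_, h⟩
    exact hF _ _ h.1
  · rintro ⟨b, ω⟩ ⟨_, h⟩ ⟨b', ω'⟩ ⟨_, h'⟩ he
    have he' : Function.update ω i b = Function.update ω' i b' := he
    have hb : b = b' := by
      have := congrFun he' i
      simpa using this
    have hω : ω = ω' := by
      funext j
      by_cases hj : j = i
      · subst hj
        have h2 : c ω = c ω' := by rw [← hc ω b, ← hc ω' b', he']
        have h3 : ω j = c ω := h.2
        have h4 : ω' j = c ω' := h'.2
        rw [h3, h4, h2]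
      · have := congrFun he' j
        simpa [hj] using this
    rw [hb, hω]

/-- if one value of the coordinate `i` is good, then the share of the bad points is at most
`1 - 1 / |A|` -/
lemma card_good {i : ι} {B G : Set (ι → A)} (hB : Cl i B)
    (hG : ∀ ω ∈ B, ∃ c, Function.update ω i c ∈ G) :
    B.ncard ≤ Fintype.card A * (B ∩ G).ncard := by
  classical
  rcases B.eq_empty_or_nonempty with hE | ⟨ω0, hω0⟩
  · rw [hE]; simp
  have : Nonempty A := ⟨(hG ω0 hω0).choose⟩
  let ε : (ι → A) → A := fun ω => Classical.epsilon fun c => Function.update ω i c ∈ G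
  have hε : ∀ ω ∈ B, Function.update ω i (ε ω) ∈ G := fun ω h => Classical.epsilon_spec (hG ω h)
  have hε2 : ∀ ω b, ε (Function.update ω i b) = ε ω := by
    intro ω b
    show Classical.epsilon _ = Classical.epsilon _
    congr 1
    funext c
    rw [Function.update_idem]
  have h1 : Fintype.card A * (B ∩ G).ncard = ((univ : Set A) ×ˢ (B ∩ G)).ncard := by
    rw [ncard_prod, ncard_univ, Nat.card_eq_fintype_card]
  rw [h1]
  refine ncard_le_ncard_of_injOn (fun ω => (ω i, Function.update ω i (ε ω))) ?_ ?_ (toFinite _)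
  · intro ω h
    exact ⟨mem_univ _, hB _ _ h, hε ω h⟩
  · intro ω h ω' h' he
    have he' : (ω i, Function.update ω i (ε ω)) = (ω' i, Function.update ω' i (ε ω')) := he
    rw [Prod.mk.injEq] at he'
    funext j
    by_cases hj : j = i
    · rw [hj]; exact he'.1
    · have := congrFun he'.2 j
      simpa [hj] using this

/-- union with a set for which one value of the coordinate is good -/
lemma card_union_good {i : ι} {B G : Set (ι → A)} (hB : Cl i B)
    (hG : ∀ ω ∈ B, ∃ c, Function.update ω i c ∈ G) (hA : 0 < Fintype.card A) :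
    ((G ∪ B).ncard : ℝ) ≤ G.ncard + (1 - 1 / (Fintype.card A : ℝ)) * B.ncard := by
  classical
  have h1 := card_good hB hG
  have h2 : (G ∪ B).ncard ≤ G.ncard + (B \ G).ncard := by
    have : G ∪ B = G ∪ (B \ G) := by
      rw [union_sdiff_self]
    rw [this]
    exact ncard_union_le _ _
  have h3 : (B \ G).ncard + (B ∩ G).ncard = B.ncard := by
    rw [add_comm]
    exact ncard_inter_add_ncard_sdiff_eq_ncard B G (toFinite _)
  have h4 : ((G ∪ B).ncard : ℝ) ≤ G.ncard + (B \ G).ncard := by exact_mod_cast h2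
  have h5 : ((B \ G).ncard : ℝ) + (B ∩ G).ncard = B.ncard := by exact_mod_cast h3
  have h6 : (B.ncard : ℝ) ≤ Fintype.card A * (B ∩ G).ncard := by exact_mod_cast h1
  have hA' : (0 : ℝ) < Fintype.card A := by exact_mod_cast hA
  have h7 : (B.ncard : ℝ) / Fintype.card A ≤ (B ∩ G).ncard := by
    rw [div_le_iff₀ hA']; linarith
  have h8 : (1 - 1 / (Fintype.card A : ℝ)) * B.ncard =
      B.ncard - (B.ncard : ℝ) / Fintype.card A := by ring
  rw [h8]
  linarith

end fiber

section model

variable {A V U : Type}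

/-- the letter of the word at time `t` -/
def wd (p : ℕ → V ⊕ A) (ω : V ⊕ U → A) (t : ℕ) : A := Sum.elim (fun i => ω (Sum.inl i)) id (p t)

/-- a parse of the first `x` symbols with offsets at most `a`; the variables in `R` have the
letters prescribed by `ω` -/
def E (p : ℕ → V ⊕ A) (q : ℕ → U ⊕ A) (x a : ℕ) (R : Finset U) : Set (V ⊕ U → A) :=
  {ω | ∃ (α : ℕ → ℕ) (f : U → A), Monotone α ∧ (∀ y, α y ≤ a) ∧
    (∀ z ∈ R, f z = ω (Sum.inr z)) ∧ ∀ y < x, wd p ω (y + α y) = Sum.elim f id (q y)}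

/-- in addition the symbol `x` is read with the offset `a` -/
def SA (p : ℕ → V ⊕ A) (q : ℕ → U ⊕ A) (x a : ℕ) (R : Finset U) : Set (V ⊕ U → A) :=
  {ω | ∃ (α : ℕ → ℕ) (f : U → A), Monotone α ∧ (∀ y, α y ≤ a) ∧
    (∀ z ∈ R, f z = ω (Sum.inr z)) ∧ (∀ y < x, wd p ω (y + α y) = Sum.elim f id (q y)) ∧
    wd p ω (x + a) = Sum.elim f id (q x)}

variable {p : ℕ → V ⊕ A} {q : ℕ → U ⊕ A} {x a : ℕ} {R : Finset U}

lemma E_succ_zero : E p q (x + 1) 0 R ⊆ SA p q x 0 R := by
  rintro ω ⟨α, f, h1, h2, h3, h4⟩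
  refine ⟨α, f, h1, h2, h3, fun y hy => h4 y (by omega), ?_⟩
  have h5 := h4 x (by omega)
  have h6 : α x = 0 := by have := h2 x; omega
  rwa [h6] at h5

lemma E_succ_succ : E p q (x + 1) (a + 1) R ⊆ SA p q x (a + 1) R ∪ E p q (x + 1) a R := by
  rintro ω ⟨α, f, h1, h2, h3, h4⟩
  by_cases h5 : α x = a + 1
  · left
    refine ⟨α, f, h1, h2, h3, fun y hy => h4 y (by omega), ?_⟩
    have := h4 x (by omega)
    rwa [h5] at this
  · right
    have h6 : α x ≤ a := by have := h2 x; omega
    refine ⟨fun y => min (α y) a, f, fun y y' h => min_le_min (h1 h) le_rfl,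
      fun y => min_le_right _ _, h3, ?_⟩
    intro y hy
    have h7 : α y ≤ a := (h1 (by omega : y ≤ x)).trans h6
    show wd p ω (y + min (α y) a) = _
    rw [min_eq_left h7]
    exact h4 y hy

lemma SA_sub : SA p q x a R ⊆ E p q x a R := by
  rintro ω ⟨α, f, h1, h2, h3, h4, _⟩
  exact ⟨α, f, h1, h2, h3, h4⟩

lemma E_sub : E p q (x + 1) a R ⊆ E p q x a R := by
  rintro ω ⟨α, f, h1, h2, h3, h4⟩
  exact ⟨α, f, h1, h2, h3, fun y hy => h4 y (by omega)⟩

lemma E_mono_R {R' : Finset U} (h : R' ⊆ R) : E p q x a R ⊆ E p q x a R' := by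
  rintro ω ⟨α, f, h1, h2, h3, h4⟩
  exact ⟨α, f, h1, h2, fun z hz => h3 z (h hz), h4⟩

variable [DecidableEq V] [DecidableEq U]

lemma wd_upd_inl {ω : V ⊕ U → A} {i : V} {t : ℕ} (h : p t ≠ Sum.inl i) (b : A) :
    wd p (Function.update ω (Sum.inl i) b) t = wd p ω t := by
  unfold wd
  rcases hp : p t with j | c
  · have hj : j ≠ i := by
      rintro rfl
      exact h hp
    simp [hj]
  · rfl

lemma wd_upd_inr {ω : V ⊕ U → A} {z : U} {t : ℕ} (b : A) :
    wd p (Function.update ω (Sum.inr z) b) t = wd p ω t := by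
  unfold wd
  rcases hp : p t with j | c
  · simp
  · rfl

lemma Cl_inl {i : V} (h : ∀ s, s + 1 < x + a + 1 → p s ≠ Sum.inl i) :
    Cl (Sum.inl i) (E p q x a R) := by
  rintro ω b ⟨α, f, h1, h2, h3, h4⟩
  refine ⟨α, f, h1, h2, fun z hz => by rw [h3 z hz]; simp, fun y hy => ?_⟩
  rw [wd_upd_inl (h _ _), h4 y hy]
  have := h2 y
  omega

lemma Cl_inr {z : U} (h : z ∉ R) : Cl (Sum.inr z) (E p q x a R) := by
  rintro ω b ⟨α, f, h1, h2, h3, h4⟩
  refine ⟨α, f, h1, h2, fun z' hz' => ?_, fun y hy => ?_⟩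
  · have : z' ≠ z := by rintro rfl; exact h hz'
    rw [h3 z' hz']
    simp [this]
  · rw [wd_upd_inr, h4 y hy]

/-- a parse with smaller offsets forces one good letter -/
lemma good_letter {i : V} (hi : p (x + (a + 1)) = Sum.inl i) (h : ∀ s < x + (a + 1), p s ≠ Sum.inl i)
    {ω : V ⊕ U → A} (hω : ω ∈ E p q (x + 1) a R) :
    ∃ c, Function.update ω (Sum.inl i) c ∈ SA p q x (a + 1) R := by
  obtain ⟨α, f, h1, h2, h3, h4⟩ := hω
  refine ⟨Sum.elim f id (q x), α, f, h1, fun y => (h2 y).trans (by omega),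
    fun z hz => by rw [h3 z hz]; simp, fun y hy => ?_, ?_⟩
  · rw [wd_upd_inl (h _ _), h4 y (by omega)]
    have := h2 y
    omega
  · unfold wd
    rw [hi]
    simp

variable [Fintype A] [Fintype V] [Fintype U]

lemma gate {i : V} {z : U} (hi : p (x + a) = Sum.inl i) (h : ∀ s < x + a, p s ≠ Sum.inl i)
    (hz : q x = Sum.inl z) (hzR : z ∉ R) :
    (SA p q x a R).ncard ≤ (E p q x a (insert z R)).ncard := by
  classical
  refine ncard_le_ncard_of_injOn (fun ω => ω ∘ Equiv.swap (Sum.inl i) (Sum.inr z)) ?_ ?_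
    (toFinite _)
  · rintro ω ⟨α, f, h1, h2, h3, h4, h5⟩
    refine ⟨α, f, h1, h2, fun z' hz' => ?_, fun y hy => ?_⟩
    · show f z' = ω (Equiv.swap (Sum.inl i) (Sum.inr z) (Sum.inr z'))
      rcases Finset.mem_insert.mp hz' with hz2 | hz2
      · rw [hz2, Equiv.swap_apply_right]
        unfold wd at h5
        rw [hi, hz] at h5
        exact h5.symm
      · have hne : z' ≠ z := fun h0 => hzR (h0 ▸ hz2)
        rw [Equiv.swap_apply_of_ne_of_ne (by simp) (by simpa using hne), h3 z' hz2]
    · rw [← h4 y hy]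
      unfold wd
      rcases hp : p (y + α y) with j | c
      · have hj : j ≠ i := by
          rintro rfl
          have := h2 y
          exact h _ (by omega) hp
        show ω (Equiv.swap (Sum.inl i) (Sum.inr z) (Sum.inl j)) = ω (Sum.inl j)
        rw [Equiv.swap_apply_of_ne_of_ne (by simpa using hj) (by simp)]
      · rfl
  · intro ω _ ω' _ he
    have he' : ω ∘ Equiv.swap (Sum.inl i) (Sum.inr z) = ω' ∘ Equiv.swap (Sum.inl i) (Sum.inr z) := he
    exact (Equiv.surjective _).injective_comp_right he'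

/-- reading a constant or a pending variable with a new variable of `p` -/
lemma old_new {i : V} (hi : p (x + a) = Sum.inl i) (h : ∀ s < x + a, p s ≠ Sum.inl i)
    (hz : ∀ z, q x = Sum.inl z → z ∈ R) :
    Fintype.card A * (SA p q x a R).ncard ≤ (E p q x a R).ncard := by
  classical
  let c : (V ⊕ U → A) → A := fun ω => Sum.elim (fun z => ω (Sum.inr z)) id (q x)
  have hc : ∀ (ω : V ⊕ U → A) b, c (Function.update ω (Sum.inl i) b) = c ω := by
    intro ω b
    show Sum.elim _ id (q x) = Sum.elim _ id (q x)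
    rcases q x with z | s
    · simp
    · rfl
  refine le_trans (Nat.mul_le_mul_left _ (ncard_le_ncard ?_ (toFinite _)))
    (card_eq (i := Sum.inl i) (Cl_inl (p := p) (q := q) (x := x) (a := a) (R := R)
      (fun s hs => h s (by omega))) c hc)
  intro ω hω
  refine ⟨SA_sub hω, ?_⟩
  obtain ⟨α, f, h1, h2, h3, h4, h5⟩ := hω
  unfold wd at h5
  rw [hi] at h5
  show ω (Sum.inl i) = Sum.elim _ id (q x)
  rcases hq : q x with z | s
  · rw [hq] at h5
    have : ω (Sum.inl i) = f z := h5
    rw [this, h3 z (hz z hq)]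
    rfl
  · rw [hq] at h5
    exact h5

/-- reading a pending variable for the first time -/
lemma source {z : U} (hz : q x = Sum.inl z) (hzR : z ∈ R) :
    Fintype.card A * (SA p q x a R).ncard ≤ (E p q x a (R.erase z)).ncard := by
  classical
  have hc : ∀ (ω : V ⊕ U → A) b, wd p (Function.update ω (Sum.inr z) b) (x + a) = wd p ω (x + a) :=
    fun ω b => wd_upd_inr b
  refine le_trans (Nat.mul_le_mul_left _ (ncard_le_ncard ?_ (toFinite _)))
    (card_eq (i := Sum.inr z) (Cl_inr (p := p) (q := q) (x := x) (a := a) (R := R.erase z)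
      (Finset.notMem_erase z R)) (fun ω => wd p ω (x + a)) hc)
  intro ω hω
  refine ⟨E_mono_R (Finset.erase_subset z R) (SA_sub hω), ?_⟩
  obtain ⟨α, f, h1, h2, h3, h4, h5⟩ := hω
  rw [hz] at h5
  have h6 := h3 z hzR
  show ω (Sum.inr z) = wd p ω (x + a)
  rw [h5]
  exact h6.symm

end model

end Pool.Agent.W5h95.PT
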