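import Mathlib
import Pool.Agent.W5h95.PT.Rec

/-!
# The bound from the recursion
-/

namespace Pool.Agent.W5h95.PT

open Set

variable {A V U : Type} [Fintype A] [Fintype V] [Fintype U] [DecidableEq V] [DecidableEq U]

/-- the potential -/
noncomputable def G (X Y Z : ℝ) (P Q : ℕ → ℕ) (x a n : ℕ) : ℝ :=
  X ^ P (x + a) * Y ^ n / (X ^ Q x * (X * Z) ^ a)

/-- the counting function of the new variables of a sequence -/
structure Cnt {A B : Type} (r : ℕ → B ⊕ A) (P : ℕ → ℕ) : Prop where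
  zero : P 0 = 0
  step : ∀ t, (P (t + 1) = P t + 1 ∧ ∃ i, r t = Sum.inl i ∧ ∀ s < t, r s ≠ Sum.inl i) ∨
    (P (t + 1) = P t ∧ ((∃ c, r t = Sum.inr c) ∨ ∃ i, r t = Sum.inl i ∧ ∃ s < t, r s = Sum.inl i))

lemma Cnt.le {A B : Type} {r : ℕ → B ⊕ A} {P : ℕ → ℕ} (h : Cnt r P) (t : ℕ) : P t ≤ t := by
  induction t with
  | zero => rw [h.zero]
  | succ t ih => rcases h.step t with ⟨h1, _⟩ | ⟨h1, _⟩ <;> omega

/-- one step of the recursion -/
lemma step {p : ℕ → V ⊕ A} {q : ℕ → U ⊕ A} {P Q : ℕ → ℕ} (hP : Cnt p P) (hQ : Cnt q Q)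
    (hA : 0 < Fintype.card A) {X Y Z : ℝ} (hX0 : 0 < X) (hX1 : X ≤ 1) (hY0 : 0 < Y) (hZ0 : 0 < Z)
    (h1 : Y + (1 - 1 / (Fintype.card A : ℝ)) * (X * Z) ≤ X)
    (h2 : 1 / (Fintype.card A : ℝ) + (1 - 1 / (Fintype.card A : ℝ)) * (X * Z) ≤ X)
    (h3 : 1 / (Fintype.card A : ℝ) + (1 - 1 / (Fintype.card A : ℝ)) * (Y * Z) ≤ Y)
    (h4 : 1 / (Fintype.card A : ℝ) + Y * Z ≤ Y / X) {x a : ℕ} {R : Finset U} {K NB : ℝ}
    (hK0 : 0 ≤ K)
    (hIH : ∀ R' : Finset U, (∀ z ∈ R', ∃ y < x, q y = Sum.inl z) →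
      ((E p q x a R').ncard : ℝ) ≤ K * G X Y Z P Q x a R'.card)
    (hR : ∀ z ∈ R, ∃ y < x + 1, q y = Sum.inl z)
    (hold : ((E p q (x + 1) a R).ncard : ℝ) ≤ (SA p q x a R).ncard + NB)
    (hnew : ∀ i, p (x + a) = Sum.inl i → (∀ s < x + a, p s ≠ Sum.inl i) →
      ((E p q (x + 1) a R).ncard : ℝ) ≤
        (SA p q x a R).ncard + (1 - 1 / (Fintype.card A : ℝ)) * NB)
    (hNB : NB ≤ K * (X ^ P (x + a) * Y ^ R.card / (X ^ Q (x + 1) * (X * Z) ^ a) * (X * Z))) :
    ((E p q (x + 1) a R).ncard : ℝ) ≤ K * G X Y Z P Q (x + 1) a R.card := by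
  classical
  set κ : ℝ := (Fintype.card A : ℝ) with hκ
  have hκ0 : 0 < κ := by rw [hκ]; exact_mod_cast hA
  have hκ1 : 1 ≤ κ := by rw [hκ]; exact_mod_cast hA
  have hq0 : 0 ≤ 1 - 1 / κ := by
    rw [sub_nonneg, div_le_one hκ0]; exact hκ1
  set D : ℝ := X ^ P (x + a) / (X ^ Q x * (X * Z) ^ a) with hD
  have hD0 : 0 < D := by rw [hD]; positivity
  have hG0 : ∀ n, G X Y Z P Q x a n = D * Y ^ n := by
    intro n; unfold G; rw [hD]; ring
  have hKD : 0 ≤ K * (D * Y ^ R.card) := by positivity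
  have hx1 : x + 1 + a = x + a + 1 := by ring
  have hle : ((E p q (x + 1) a R).ncard : ℝ) ≤ (E p q x a R).ncard := by
    exact_mod_cast ncard_le_ncard E_sub (toFinite _)
  rcases hQ.step x with ⟨hQ1, z, hz, hzn⟩ | ⟨hQ1, hold'⟩
  · -- the symbol is new
    have hG1 : G X Y Z P Q (x + 1) a R.card =
        X ^ P (x + a + 1) * Y ^ R.card / (X ^ Q x * (X * Z) ^ a) / X := by
      unfold G
      rw [hx1, hQ1, pow_succ]
      field_simp
    have hNB1 : NB ≤ K * (D * Y ^ R.card * Z) := by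
      refine hNB.trans (le_of_eq ?_)
      rw [hQ1, hD, pow_succ]
      field_simp
    by_cases hzR : z ∈ R
    · obtain ⟨m, hm⟩ : ∃ m, R.card = m + 1 :=
        ⟨R.card - 1, by have := Finset.card_pos.mpr ⟨z, hzR⟩; omega⟩
      have hs := source (p := p) (x := x) (a := a) hz hzR
      have hs1 : κ * ((SA p q x a R).ncard : ℝ) ≤ (E p q x a (R.erase z)).ncard := by
        rw [hκ]; exact_mod_cast hs
      have hs2 := hIH (R.erase z) (by
        intro z' hz'
        obtain ⟨hne, hz2⟩ := Finset.mem_erase.mp hz'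
        obtain ⟨y, hy, hqy⟩ := hR z' hz2
        refine ⟨y, ?_, hqy⟩
        rcases Nat.lt_succ_iff_lt_or_eq.mp hy with h | h
        · exact h
        · rw [h, hz] at hqy
          exact absurd (Sum.inl.inj hqy).symm hne)
      rw [hG0, Finset.card_erase_of_mem hzR, hm, Nat.add_sub_cancel] at hs2
      have hs3 : ((SA p q x a R).ncard : ℝ) ≤ 1 / κ * (K * (D * Y ^ m)) := by
        rw [div_mul_eq_mul_div, one_mul, le_div_iff₀ hκ0]
        linarith
      have hKm : 0 ≤ K * (D * Y ^ m) := by positivity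
      rw [hm] at hNB1 hG1 ⊢
      rw [hG1]
      rcases hP.step (x + a) with ⟨hP1, i, hi, hin⟩ | ⟨hP1, _⟩
      · have h5 := hnew i hi hin
        have h6 : K * (X ^ P (x + a + 1) * Y ^ (m + 1) / (X ^ Q x * (X * Z) ^ a) / X) =
            K * (D * Y ^ m) * Y := by
          rw [hP1, hD, pow_succ]
          field_simp
          ring
        rw [h6]
        have h7 : (1 - 1 / κ) * NB ≤ (1 - 1 / κ) * (K * (D * Y ^ (m + 1) * Z)) :=
          mul_le_mul_of_nonneg_left hNB1 hq0
        have h8 := mul_le_mul_of_nonneg_left h3 hKm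
        have h9 : (1 - 1 / κ) * (K * (D * Y ^ (m + 1) * Z)) =
            K * (D * Y ^ m) * ((1 - 1 / κ) * (Y * Z)) := by ring
        rw [h9] at h7
        linarith
      · have h6 : K * (X ^ P (x + a + 1) * Y ^ (m + 1) / (X ^ Q x * (X * Z) ^ a) / X) =
            K * (D * Y ^ m) * (Y / X) := by
          rw [hP1, hD, pow_succ]
          field_simp
        rw [h6]
        have h8 := mul_le_mul_of_nonneg_left h4 hKm
        have h9 : K * (D * Y ^ (m + 1) * Z) = K * (D * Y ^ m) * (Y * Z) := by ring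
        rw [h9] at hNB1
        linarith
    · have hs2 := hIH R (by
        intro z' hz'
        obtain ⟨y, hy, hqy⟩ := hR z' hz'
        refine ⟨y, ?_, hqy⟩
        rcases Nat.lt_succ_iff_lt_or_eq.mp hy with h | h
        · exact h
        · rw [h, hz] at hqy
          exact absurd ((Sum.inl.inj hqy) ▸ hz') hzR)
      rw [hG0] at hs2
      refine hle.trans (hs2.trans ?_)
      rw [hG1]
      have h6 : D * Y ^ R.card ≤
          X ^ P (x + a + 1) * Y ^ R.card / (X ^ Q x * (X * Z) ^ a) / X := by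
        rw [le_div_iff₀ hX0]
        have h7 : X ^ P (x + a) * X ≤ X ^ P (x + a + 1) := by
          rw [← pow_succ]
          apply pow_le_pow_of_le_one hX0.le hX1
          rcases hP.step (x + a) with ⟨hP1, _⟩ | ⟨hP1, _⟩ <;> omega
        have h8 : D * Y ^ R.card * X =
            (X ^ P (x + a) * X) * Y ^ R.card / (X ^ Q x * (X * Z) ^ a) := by
          rw [hD]; ring
        rw [h8]
        gcongr
      exact mul_le_mul_of_nonneg_left h6 hK0
  · -- the symbol is old
    have hseen : ∀ z ∈ R, ∃ y < x, q y = Sum.inl z := by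
      intro z hz
      obtain ⟨y, hy, hqy⟩ := hR z hz
      rcases Nat.lt_succ_iff_lt_or_eq.mp hy with h | h
      · exact ⟨y, h, hqy⟩
      · rw [h] at hqy
        rcases hold' with ⟨c, hc⟩ | ⟨z', hz', s, hs, hqs⟩
        · rw [hc] at hqy; cases hqy
        · rw [hz'] at hqy
          exact ⟨s, hs, by rw [hqs, hqy]⟩
    have hs2 := hIH R hseen
    rw [hG0] at hs2
    have hNB1 : NB ≤ K * (D * Y ^ R.card) * (X * Z) := by
      refine hNB.trans (le_of_eq ?_)
      rw [hQ1, hD]
      ring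
    rcases hP.step (x + a) with ⟨hP1, i, hi, hin⟩ | ⟨hP1, _⟩
    · have h5 := hnew i hi hin
      have hG1 : K * G X Y Z P Q (x + 1) a R.card = K * (D * Y ^ R.card) * X := by
        unfold G
        rw [hx1, hQ1, hP1, hD, pow_succ]
        field_simp
      rw [hG1]
      have h7 : (1 - 1 / κ) * NB ≤ (1 - 1 / κ) * (K * (D * Y ^ R.card) * (X * Z)) :=
        mul_le_mul_of_nonneg_left hNB1 hq0
      by_cases hzR : ∀ z, q x = Sum.inl z → z ∈ R
      · have hs := old_new (q := q) hi hin hzR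
        have hs1 : κ * ((SA p q x a R).ncard : ℝ) ≤ (E p q x a R).ncard := by
          rw [hκ]; exact_mod_cast hs
        have hs3 : ((SA p q x a R).ncard : ℝ) ≤ 1 / κ * (K * (D * Y ^ R.card)) := by
          rw [div_mul_eq_mul_div, one_mul, le_div_iff₀ hκ0]
          linarith
        have h8 := mul_le_mul_of_nonneg_left h2 hKD
        have h9 : (1 - 1 / κ) * (K * (D * Y ^ R.card) * (X * Z)) =
          K * (D * Y ^ R.card) * ((1 - 1 / κ) * (X * Z)) := by ring
        rw [h9] at h7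
        linarith
      · push Not at hzR
        obtain ⟨z, hz, hzR⟩ := hzR
        have hs := gate hi hin hz hzR
        have hs1 : ((SA p q x a R).ncard : ℝ) ≤ (E p q x a (insert z R)).ncard := by
          exact_mod_cast hs
        have hs3 := hIH (insert z R) (by
          intro z' hz'
          rcases Finset.mem_insert.mp hz' with h | h
          · rw [h]
            rcases hold' with ⟨c, hc⟩ | ⟨z2, hz2, s, hs, hqs⟩
            · rw [hc] at hz; cases hz
            · rw [hz2] at hz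
              exact ⟨s, hs, by rw [hqs, hz]⟩
          · exact hseen z' h)
        rw [hG0, Finset.card_insert_of_notMem hzR] at hs3
        have h8 := mul_le_mul_of_nonneg_left h1 hKD
        have h9 : (1 - 1 / κ) * (K * (D * Y ^ R.card) * (X * Z)) =
          K * (D * Y ^ R.card) * ((1 - 1 / κ) * (X * Z)) := by ring
        have h10 : K * (D * Y ^ (R.card + 1)) = K * (D * Y ^ R.card) * Y := by ring
        rw [h9] at h7
        rw [h10] at hs3
        linarith
    · have hG1 : K * G X Y Z P Q (x + 1) a R.card = K * (D * Y ^ R.card) := by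
        unfold G
        rw [hx1, hQ1, hP1, hD]
        ring
      rw [hG1]
      exact hle.trans hs2

theorem bound {p : ℕ → V ⊕ A} {q : ℕ → U ⊕ A} {P Q : ℕ → ℕ} (hP : Cnt p P) (hQ : Cnt q Q)
    (hA : 0 < Fintype.card A) {X Y Z : ℝ} (hX0 : 0 < X) (hX1 : X ≤ 1) (hY0 : 0 < Y) (hZ0 : 0 < Z)
    (hZ1 : Z ≤ 1)
    (h1 : Y + (1 - 1 / (Fintype.card A : ℝ)) * (X * Z) ≤ X)
    (h2 : 1 / (Fintype.card A : ℝ) + (1 - 1 / (Fintype.card A : ℝ)) * (X * Z) ≤ X)
    (h3 : 1 / (Fintype.card A : ℝ) + (1 - 1 / (Fintype.card A : ℝ)) * (Y * Z) ≤ Y)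
    (h4 : 1 / (Fintype.card A : ℝ) + Y * Z ≤ Y / X) (x : ℕ) :
    ∀ (a : ℕ) (R : Finset U), (∀ z ∈ R, ∃ y < x, q y = Sum.inl z) →
      ((E p q x a R).ncard : ℝ) ≤ (univ : Set (V ⊕ U → A)).ncard * G X Y Z P Q x a R.card := by
  classical
  set K : ℝ := ((univ : Set (V ⊕ U → A)).ncard : ℝ) with hK
  have hK0 : 0 ≤ K := Nat.cast_nonneg _
  induction x with
  | zero =>
    intro a R hR
    have hRe : R = ∅ := by
      rw [Finset.eq_empty_iff_forall_notMem]
      intro z hz
      obtain ⟨y, hy, _⟩ := hR z hz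
      omega
    subst hRe
    have h5 : ((E p q 0 a ∅).ncard : ℝ) ≤ K := by
      rw [hK]
      exact_mod_cast ncard_le_ncard (subset_univ _) (toFinite _)
    refine h5.trans ?_
    have h6 : 1 ≤ G X Y Z P Q 0 a (∅ : Finset U).card := by
      unfold G
      rw [Finset.card_empty, pow_zero, mul_one, hQ.zero, pow_zero, one_mul,
        one_le_div (by positivity), mul_pow, zero_add]
      calc X ^ a * Z ^ a ≤ X ^ a * 1 := by
            gcongr
            exact pow_le_one₀ hZ0.le hZ1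
        _ = X ^ a := mul_one _
        _ ≤ X ^ P a := pow_le_pow_of_le_one hX0.le hX1 (hP.le a)
    calc K = K * 1 := (mul_one _).symm
      _ ≤ _ := by gcongr
  | succ x ihx =>
    intro a
    induction a with
    | zero =>
      intro R hR
      have hne : ((E p q (x + 1) 0 R).ncard : ℝ) ≤ (SA p q x 0 R).ncard := by
        exact_mod_cast ncard_le_ncard E_succ_zero (toFinite _)
      refine step hP hQ hA hX0 hX1 hY0 hZ0 h1 h2 h3 h4 (NB := 0) hK0 (fun R' h => ihx 0 R' h) hR
        (by linarith) (fun i _ _ => by linarith) (by positivity)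
    | succ a iha =>
      intro R hR
      have hi := iha R hR
      refine step hP hQ hA hX0 hX1 hY0 hZ0 h1 h2 h3 h4 (NB := (E p q (x + 1) a R).ncard) hK0
        (fun R' h => ihx (a + 1) R' h) hR ?_ ?_ ?_
      · exact_mod_cast (ncard_le_ncard E_succ_succ (toFinite _)).trans (ncard_union_le _ _)
      · intro i hpi hin
        have h5 := card_union_good (i := Sum.inl i) (B := E p q (x + 1) a R)
          (G := SA p q x (a + 1) R) (Cl_inl (fun s hs => hin s (by omega)))
          (fun ω hω => good_letter hpi hin hω) hA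
        refine le_trans ?_ h5
        exact_mod_cast ncard_le_ncard E_succ_succ (toFinite _)
      · refine hi.trans (le_of_eq ?_)
        unfold G
        rw [pow_succ (X * Z) a, show x + 1 + a = x + (a + 1) by ring]
        field_simp

end Pool.Agent.W5h95.PT
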