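import Mathlib
import Pool.Agent.W5h95.PT.Bound
import Pool.Agent.TH657.PatH
import Pool.Agent.W6.PAT.Step

/-!
# The law from the recursion
-/

namespace Pool.Agent.W5h95.PT

open Pool.Agent.PatDepth Pool.Agent.H344R3.PD Pool.Agent.W1.Pat

section bridge

variable {A : Type} [Inhabited A]

open Classical in
/-- a list as a sequence of variables and letters -/
noncomputable def tr (r : List (ℕ ⊕ A)) (t : ℕ) : {x // x ∈ vars r} ⊕ A :=
  if h : ∃ x : {x // x ∈ vars r}, r[t]? = some (Sum.inl x.1) then Sum.inl h.choose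
  else Sum.inr ((r[t]?.bind Sum.getRight?).getD default)

lemma tr_inl {r : List (ℕ ⊕ A)} {t : ℕ} {x : ℕ} (h : r[t]? = some (Sum.inl x)) :
    ∃ hx : x ∈ vars r, tr r t = Sum.inl ⟨x, hx⟩ := by
  have hx : x ∈ vars r := by
    rw [mem_vars']
    exact List.mem_of_getElem? h
  refine ⟨hx, ?_⟩
  have h1 : ∃ x : {x // x ∈ vars r}, r[t]? = some (Sum.inl x.1) := ⟨⟨x, hx⟩, h⟩
  unfold tr
  rw [dif_pos h1]
  congr 1
  have h2 := h.symm.trans h1.choose_spec
  apply Subtype.ext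
  exact (Sum.inl.inj (Option.some.inj h2)).symm

lemma tr_inr {r : List (ℕ ⊕ A)} {t : ℕ} {c : A} (h : r[t]? = some (Sum.inr c)) :
    tr r t = Sum.inr c := by
  have h1 : ¬ ∃ x : {x // x ∈ vars r}, r[t]? = some (Sum.inl x.1) := by
    rintro ⟨x, hx⟩
    rw [h] at hx
    cases hx
  unfold tr
  rw [dif_neg h1, h]
  rfl

lemma tr_none {r : List (ℕ ⊕ A)} {t : ℕ} (h : r[t]? = none) :
    tr r t = Sum.inr default := by
  have h1 : ¬ ∃ x : {x // x ∈ vars r}, r[t]? = some (Sum.inl x.1) := by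
    rintro ⟨x, hx⟩
    rw [h] at hx
    cases hx
  unfold tr
  rw [dif_neg h1, h]
  rfl

lemma tr_eq_inl {r : List (ℕ ⊕ A)} {t : ℕ} {x : {x // x ∈ vars r}} (h : tr r t = Sum.inl x) :
    r[t]? = some (Sum.inl x.1) := by
  rcases hr : r[t]? with _ | s
  · rw [tr_none hr] at h; cases h
  · rcases s with y | c
    · obtain ⟨hy, h2⟩ := tr_inl hr
      rw [h2] at h
      have h3 := Sum.inl.inj h
      rw [← h3]
    · rw [tr_inr hr] at h; cases h

lemma cnt_tr (r : List (ℕ ⊕ A)) : Cnt (tr r) (nv r) := by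
  refine ⟨nv0 r, fun t => ?_⟩
  rcases nv_cases r t with ⟨h1, h2⟩ | ⟨c, h1, h2⟩ | ⟨x, h1, h3, h2⟩ | ⟨x, h1, h3, h2⟩
  · exact Or.inr ⟨h2, Or.inl ⟨default, tr_none h1⟩⟩
  · exact Or.inr ⟨h2, Or.inl ⟨c, tr_inr h1⟩⟩
  · obtain ⟨e, he, he2⟩ := mem_vars_take.mp h3
    obtain ⟨hx, h4⟩ := tr_inl h1
    obtain ⟨hx', h5⟩ := tr_inl he2
    exact Or.inr ⟨h2, Or.inr ⟨_, h4, e, he, h5⟩⟩
  · obtain ⟨hx, h4⟩ := tr_inl h1
    refine Or.inl ⟨h2, _, h4, fun s hs h5 => h3 ?_⟩
    exact mem_vars_take.mpr ⟨s, hs, tr_eq_inl h5⟩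

variable [Fintype A]

lemma wd_tr (p : List (ℕ ⊕ A)) {U : Type} (ω : {x // x ∈ vars p} ⊕ U → A) {t : ℕ} {b : A}
    (h : (W p fun x => ω (Sum.inl x))[t]? = some b) : wd (tr p) ω t = b := by
  have hlt : t < p.length := by
    obtain ⟨h1, _⟩ := List.getElem?_eq_some_iff.mp h
    rwa [W_length] at h1
  have hb : (W p fun x => ω (Sum.inl x))[t]?.getD default = b := by rw [h]; rfl
  rcases hp : p[t]? with _ | s
  · rw [List.getElem?_eq_none_iff] at hp; omega
  · rcases s with x | c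
    · obtain ⟨hx, h2⟩ := tr_inl hp
      rw [W_get p _ t hx hp] at hb
      unfold wd
      rw [h2]
      exact hb
    · unfold wd
      rw [tr_inr hp]
      unfold W at hb
      rw [lets, List.getElem?_map, hp] at hb
      exact hb

/-- **Main inequality.** -/
theorem core4 {p q : List (ℕ ⊕ A)} {l m : ℕ} (h : Lang p ⊆ Lang q)
    (hl : p.length = q.length + l) {X Y Z : ℝ} (hX0 : 0 < X) (hX1 : X ≤ 1) (hY0 : 0 < Y)
    (hZ0 : 0 < Z) (hZ1 : Z ≤ 1)
    (h1 : Y + (1 - 1 / (Fintype.card A : ℝ)) * (X * Z) ≤ X)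
    (h2 : 1 / (Fintype.card A : ℝ) + (1 - 1 / (Fintype.card A : ℝ)) * (X * Z) ≤ X)
    (h3 : 1 / (Fintype.card A : ℝ) + (1 - 1 / (Fintype.card A : ℝ)) * (Y * Z) ≤ Y)
    (h4 : 1 / (Fintype.card A : ℝ) + Y * Z ≤ Y / X) (hXZ : X ^ m < Z ^ l) :
    nvar p < nvar q + l + m := by
  classical
  by_contra hcon
  push Not at hcon
  have hA : 0 < Fintype.card A := Fintype.card_pos
  have hb := bound (cnt_tr p) (cnt_tr q) hA hX0 hX1 hY0 hZ0 hZ1 h1 h2 h3 h4 q.length l ∅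
    (by intro z hz; simp at hz)
  have hcov : (Set.univ : Set ({x // x ∈ vars p} ⊕ {x // x ∈ vars q} → A)) ⊆
      E (tr p) (tr q) q.length l ∅ := by
    intro ω _
    obtain ⟨α, f, hα, hαl, hf, hfw⟩ := path_exists (h (W_mem p fun x => ω (Sum.inl x)))
      ((W_length p _).trans hl)
    refine ⟨α, fun z => f (Sum.inl z.1), hα, hαl, by intro z hz; simp at hz, ?_⟩
    intro y hy
    obtain ⟨s, hs⟩ : ∃ s, q[y]? = some s := ⟨_, List.getElem?_eq_getElem hy⟩
    have h5 := wd_tr p ω (hfw y s hs)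
    rw [h5]
    rcases s with z | c
    · obtain ⟨hz, h6⟩ := tr_inl hs
      rw [h6]
      rfl
    · rw [tr_inr hs]
      exact hf c
  have h5 : ((Set.univ : Set ({x // x ∈ vars p} ⊕ {x // x ∈ vars q} → A)).ncard : ℝ) ≤
      (E (tr p) (tr q) q.length l ∅).ncard := by
    exact_mod_cast Set.ncard_le_ncard hcov (Set.toFinite _)
  have hK : 0 < ((Set.univ : Set ({x // x ∈ vars p} ⊕ {x // x ∈ vars q} → A)).ncard : ℝ) := by
    have : 0 < (Set.univ : Set ({x // x ∈ vars p} ⊕ {x // x ∈ vars q} → A)).ncard :=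
      (Set.ncard_pos (Set.toFinite _)).mpr Set.univ_nonempty
    exact_mod_cast this
  have h6 : 1 ≤ G X Y Z (nv p) (nv q) q.length l (∅ : Finset {x // x ∈ vars q}).card := by
    have h7 := h5.trans hb
    by_contra h8
    push Not at h8
    have := mul_lt_mul_of_pos_left h8 hK
    rw [mul_one] at this
    linarith
  unfold G at h6
  rw [Finset.card_empty, pow_zero, mul_one, one_le_div (by positivity), mul_pow] at h6
  have hp : nv p (q.length + l) = nvar p := by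
    unfold nv
    rw [← hl, List.take_length]
  have hq : nv q q.length = nvar q := by
    unfold nv
    rw [List.take_length]
  rw [hp, hq] at h6
  have h7 : X ^ nvar p ≤ X ^ (nvar q + l + m) := pow_le_pow_of_le_one hX0.le hX1 hcon
  have h8 : X ^ (nvar q + l + m) = X ^ nvar q * (X ^ l * X ^ m) := by
    rw [pow_add, pow_add]; ring
  have h9 : X ^ nvar q * (X ^ l * X ^ m) < X ^ nvar q * (X ^ l * Z ^ l) := by
    have : 0 < X ^ nvar q := by positivity
    have : 0 < X ^ l := by positivity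
    gcongr
  linarith

/-- the inequality with a rational slope -/
theorem core5 {p q : List (ℕ ⊕ A)} {l r s : ℕ} (h : Lang p ⊆ Lang q)
    (hl : p.length = q.length + l) (hl1 : 1 ≤ l) {X Y Z : ℝ} (hX0 : 0 < X) (hX1 : X ≤ 1)
    (hY0 : 0 < Y) (hZ0 : 0 < Z) (hZ1 : Z ≤ 1)
    (h1 : Y + (1 - 1 / (Fintype.card A : ℝ)) * (X * Z) ≤ X)
    (h2 : 1 / (Fintype.card A : ℝ) + (1 - 1 / (Fintype.card A : ℝ)) * (X * Z) ≤ X)
    (h3 : 1 / (Fintype.card A : ℝ) + (1 - 1 / (Fintype.card A : ℝ)) * (Y * Z) ≤ Y)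
    (h4 : 1 / (Fintype.card A : ℝ) + Y * Z ≤ Y / X) (hr : 1 ≤ r) (hXZ : X ^ s < Z ^ r) :
    r * nvar p < r * (nvar q + l) + s * l := by
  by_contra hcon
  push Not at hcon
  have h6 : nvar q + l ≤ nvar p := by
    by_contra h7
    push Not at h7
    have := Nat.mul_lt_mul_of_pos_left h7 hr
    omega
  set m := nvar p - (nvar q + l) with hm
  have h7 : s * l ≤ r * m := by
    have h8 : nvar p = (nvar q + l) + m := by omega
    rw [h8, Nat.mul_add r (nvar q + l) m] at hcon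
    omega
  have h8 : X ^ m < Z ^ l := by
    have h9 : (X ^ m) ^ r < (Z ^ l) ^ r := by
      calc (X ^ m) ^ r = X ^ (r * m) := by rw [← pow_mul, mul_comm]
        _ ≤ X ^ (s * l) := pow_le_pow_of_le_one hX0.le hX1 h7
        _ = (X ^ s) ^ l := by rw [pow_mul]
        _ < (Z ^ r) ^ l := pow_lt_pow_left₀ hXZ (by positivity) (by omega)
        _ = (Z ^ l) ^ r := by rw [← pow_mul, ← pow_mul, mul_comm]
    exact lt_of_pow_lt_pow_left₀ r (by positivity) h9
  have := core4 h hl hX0 hX1 hY0 hZ0 hZ1 h1 h2 h3 h4 h8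
  omega

end bridge

end Pool.Agent.W5h95.PT
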