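import Mathlib
import Pool.Agent.W5h95.PT.Law

/-!
# The law for small alphabets
-/

namespace Pool.Agent.W5h95.PT

open Pool.Agent.PatDepth Pool.Agent.H344R3.PD Pool.Agent.W1.Pat Pool.Agent.W6.PAT

variable {A : Type} [Fintype A] [Nontrivial A]

/-- every strict inclusion raises `(t / u + 1) |p| - #var(p)` by at least `1` -/
def LawC (A : Type) (t u : ℕ) : Prop :=
  ∀ p q : List (ℕ ⊕ A), Lang p ⊂ Lang q →
    (t + u) * q.length + u * nvar p + u ≤ (t + u) * p.length + u * nvar q

/-- from the inequality for the lengths -/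
lemma lawC_of {t u : ℕ} (ht : 1 ≤ t)
    (h : ∀ p q : List (ℕ ⊕ A), Lang p ⊂ Lang q → ∀ l, 1 ≤ l → p.length = q.length + l →
      u * nvar p + u ≤ (t + u) * l + u * nvar q) : LawC A t u := by
  intro p q hpq
  have h0 := ne_length hpq.subset
  rcases Nat.eq_zero_or_pos (p.length - q.length) with h1 | h1
  · have h2 := partOne hpq (by omega)
    have h3 : p.length = q.length := by omega
    rw [h3] at h2 ⊢
    have h4 : nvar p + 1 ≤ nvar q := by omega
    have h5 := Nat.mul_le_mul_left u h4
    rw [Nat.mul_add] at h5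
    omega
  · have h2 := h p q hpq _ h1 h0
    have h3 : (t + u) * p.length = (t + u) * q.length + (t + u) * (p.length - q.length) := by
      conv_lhs => rw [h0]
      ring
    omega

theorem depthC {t u : ℕ} (hL : LawC A t u) {p : List (ℕ ⊕ A)} {n : ℕ} (h : HasChain p n) :
    u * n + t + u * nvar p ≤ (t + u) * p.length := by
  obtain ⟨f, _, hc0, hcn, hstep⟩ := h
  have key : ∀ i ≤ n, u * i + t + u * nvar (f i) ≤ (t + u) * (f i).length := by
    intro i
    induction i with
    | zero =>
      intro _
      obtain ⟨h1, h2⟩ := lang_eq_invariant hc0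
      have h3 : nvar ([Sum.inl 1] : List (ℕ ⊕ A)) = 1 := by simp [nvar]
      rw [h1, h2, h3]
      simp
    | succ i ih =>
      intro hi
      have h1 := hstep i (by omega)
      have h2 := ih (by omega)
      have h4 := hL _ _ h1
      have h5 : u * (i + 1) = u * i + u := by ring
      omega
  obtain ⟨h1, h2⟩ := lang_eq_invariant hcn
  have := key n le_rfl
  rw [h1, h2] at this
  exact this

lemma inh : Nonempty (Inhabited A) := by
  obtain ⟨d⟩ : Nonempty A := inferInstance
  exact ⟨⟨d⟩⟩

theorem law2 (hA : Fintype.card A = 2) : LawC A 7 2 := by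
  obtain ⟨_⟩ := inh (A := A)
  refine lawC_of (by norm_num) fun p q hpq l hl hlen => ?_
  by_cases h1 : l = 1
  · have h2 := partOne hpq (by omega)
    omega
  · have h3 := core5 (r := 3) (s := 10) (X := 32 / 49) (Y := 4 / 7) (Z := 1 / 4) hpq.subset hlen hl
      (by norm_num) (by norm_num) (by norm_num) (by norm_num) (by norm_num)
      (by rw [hA]; norm_num) (by rw [hA]; norm_num) (by rw [hA]; norm_num) (by rw [hA]; norm_num)
      (by norm_num) (by norm_num)
    omega

theorem law3 (hA : Fintype.card A = 3) : LawC A 2 1 := by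
  obtain ⟨_⟩ := inh (A := A)
  refine lawC_of (by norm_num) fun p q hpq l hl hlen => ?_
  have h3 := core5 (r := 1) (s := 2) (X := 25 / 48) (Y := 5 / 12) (Z := 3 / 10) hpq.subset hlen hl
      (by norm_num) (by norm_num) (by norm_num) (by norm_num) (by norm_num)
      (by rw [hA]; norm_num) (by rw [hA]; norm_num) (by rw [hA]; norm_num) (by rw [hA]; norm_num)
      (by norm_num) (by norm_num)
  omega

theorem law4 (hA : Fintype.card A = 4) : LawC A 3 2 := by
  obtain ⟨_⟩ := inh (A := A)
  refine lawC_of (by norm_num) fun p q hpq l hl hlen => ?_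
  by_cases h1 : l ≤ 5
  · have h2 := rel_le hpq.subset (by rw [hA]; omega)
    rw [hA] at h2
    omega
  · have h3 := core5 (r := 5) (s := 7) (X := 4 / 9) (Y := 1 / 3) (Z := 1 / 3) hpq.subset hlen hl
      (by norm_num) (by norm_num) (by norm_num) (by norm_num) (by norm_num)
      (by rw [hA]; norm_num) (by rw [hA]; norm_num) (by rw [hA]; norm_num) (by rw [hA]; norm_num)
      (by norm_num) (by norm_num)
    omega

theorem law5 (hA : Fintype.card A = 5) : LawC A 6 5 := by
  obtain ⟨_⟩ := inh (A := A)
  refine lawC_of (by norm_num) fun p q hpq l hl hlen => ?_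
  by_cases h1 : l ≤ 7
  · have h2 := rel_le hpq.subset (by rw [hA]; omega)
    rw [hA] at h2
    omega
  · have h3 := core5 (r := 10) (s := 11) (X := 125 / 289) (Y := 5 / 17) (Z := 2 / 5) hpq.subset
      hlen hl
      (by norm_num) (by norm_num) (by norm_num) (by norm_num) (by norm_num)
      (by rw [hA]; norm_num) (by rw [hA]; norm_num) (by rw [hA]; norm_num) (by rw [hA]; norm_num)
      (by norm_num) (by norm_num)
    omega

theorem law6 (hA : 6 ≤ Fintype.card A) : LawC A 1 1 := by
  obtain ⟨_⟩ := inh (A := A)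
  rcases Nat.eq_or_lt_of_le hA with hA | hA
  · refine lawC_of (by norm_num) fun p q hpq l hl hlen => ?_
    have h3 := core5 (r := 1) (s := 1) (X := 3 / 8) (Y := 1 / 4) (Z := 2 / 5) hpq.subset hlen hl
      (by norm_num) (by norm_num) (by norm_num) (by norm_num) (by norm_num)
      (by rw [← hA]; norm_num) (by rw [← hA]; norm_num) (by rw [← hA]; norm_num)
      (by rw [← hA]; norm_num) (by norm_num) (by norm_num)
    omega
  · intro p q hpq
    have h2 : (2 * 1 + 1) ^ (2 * 1 + 1) ≤ (2 * 1) ^ (2 * 1) * Fintype.card A ^ 1 := by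
      norm_num
      omega
    have := Pool.Agent.TH657.Pat.law3 (c := 1) le_rfl h2 hpq
    omega

end Pool.Agent.W5h95.PT
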